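import Mathlib
import Pool.Agent.Helper86.Final

set_option autoImplicit false

/-
For k = 2 (random 2-SAT process): with probability bounded away from zero, for all large n,
no nonempty uniquely satisfiable subformula is present in any F_m with m at most tau.
-/

namespace Pool.Agent.Results.MP_284d10_pr.TwoSat

/-- The 2-clauses on the variables `Fin n`: sets of two literals on two distinct variables. -/
abbrev TwoClause (n : ℕ) : Type :=
  {c : Finset (Fin n × Bool) // c.card = 2 ∧ (c.image Prod.fst).card = 2}

/-- The assignment `a` satisfies every clause of `H`. -/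
def Satisfies {n : ℕ} (a : Fin n → Bool) (H : Finset (TwoClause n)) : Prop :=
  ∀ c ∈ H, ∃ l ∈ c.val, a l.1 = l.2

/-- `H` is satisfied by exactly one assignment to the variables occurring in `H`. -/
def UniquelySat {n : ℕ} (H : Finset (TwoClause n)) : Prop :=
  ∃ a : Fin n → Bool, Satisfies a H ∧ ∀ b : Fin n → Bool, Satisfies b H →
    ∀ i : Fin n, (∃ c ∈ H, ∃ l ∈ c.val, l.1 = i) → b i = a i

/-- The orderings of all 2-clauses on `n` variables. -/
abbrev Ordering (n : ℕ) : Type := Fin (Nat.card (TwoClause n)) ≃ TwoClause n

/-- The formula `F_m` made of the first `m` clauses of the ordering. -/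
def process {n : ℕ} (e : Ordering n) (m : ℕ) : Finset (TwoClause n) :=
  Finset.univ.filter (fun c => ((e.symm c : Fin _) : ℕ) < m)

/-- There is a constant `δ > 0` such that for all large `n`, in a uniformly random ordering of all
2-clauses on `n` variables, with probability at least `δ` no `F_m` such that all earlier `F_j` are
satisfiable (that is, `m` is at most the first unsatisfiable time) contains a nonempty uniquely
satisfiable subformula. -/
theorem result : ∃ δ : ℝ, 0 < δ ∧ ∀ᶠ n : ℕ in Filter.atTop,
    δ ≤ (Nat.card {e : Ordering n // ∀ m : ℕ,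
        (∀ j < m, ∃ a : Fin n → Bool, Satisfies a (process e j)) →
        ∀ H ⊆ process e m, H.Nonempty → ¬ UniquelySat H} : ℝ) / (Nat.card (Ordering n) : ℝ) := by
  refine ⟨Pool.Agent.Helper86.M0 / 18, by have := Pool.Agent.Helper86.M0_pos; positivity, ?_⟩
  filter_upwards [Pool.Agent.Helper86.ratio_le] with n hn
  classical
  have hpos : (0 : ℝ) < (Nat.card (Ordering n) : ℝ) := by
    have : 0 < Nat.card (Ordering n) := by
      rw [Nat.card_eq_fintype_card, Fintype.card_pos_iff]
      exact ⟨(Finite.equivFin (TwoClause n)).symm⟩
    exact_mod_cast this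
  rw [div_le_iff₀ hpos] at hn
  rw [le_div_iff₀ hpos]
  have hsum : Nat.card {e : Ordering n // Pool.Agent.Helper86.Bad n e} +
      Nat.card {e : Ordering n // ∀ m : ℕ,
        (∀ j < m, ∃ a : Fin n → Bool, Satisfies a (process e j)) →
        ∀ H ⊆ process e m, H.Nonempty → ¬ UniquelySat H} = Nat.card (Ordering n) := by
    have c0 : Nat.card (Ordering n) = (Finset.univ : Finset (Ordering n)).card := by
      rw [Nat.card_eq_fintype_card (α := Ordering n), Finset.card_univ]
    have c1 : ∀ P : Ordering n → Prop, Nat.card {e : Ordering n // P e} =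
        (Finset.univ.filter P).card := by
      intro P
      rw [Nat.card_eq_fintype_card (α := {e : Ordering n // P e}), Fintype.card_subtype]
    rw [c1, c1, c0, ← Finset.card_union_of_disjoint]
    · congr 1
      ext e
      simp only [Finset.mem_union, Finset.mem_filter, Finset.mem_univ, true_and, iff_true]
      by_cases hb : Pool.Agent.Helper86.Bad n e
      · exact Or.inl hb
      · refine Or.inr (fun m hm H hH hne hu => hb ?_)
        obtain ⟨a, ha, hua⟩ := hu
        refine ⟨m, ?_, H, hne, ?_, a, ha, hua⟩
        · intro j hj
          obtain ⟨b, hb'⟩ := hm j hj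
          refine ⟨b, fun c hc => hb' c ?_⟩
          unfold process
          rw [Finset.mem_filter]
          exact ⟨Finset.mem_univ _, hc⟩
        · intro c hc
          have := hH hc
          unfold process at this
          rw [Finset.mem_filter] at this
          exact this.2
    · rw [Finset.disjoint_filter]
      rintro e _ ⟨m, hm, H, hne, hH, a, ha, hua⟩ h2
      refine h2 m ?_ H ?_ hne ⟨a, ha, hua⟩
      · intro j hj
        obtain ⟨b, hb'⟩ := hm j hj
        refine ⟨b, fun c hc => hb' c ?_⟩
        unfold process at hc
        rw [Finset.mem_filter] at hc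
        exact hc.2
      · intro c hc
        unfold process
        rw [Finset.mem_filter]
        exact ⟨Finset.mem_univ _, hH c hc⟩
  have hsum' : (Nat.card {e : Ordering n // Pool.Agent.Helper86.Bad n e} : ℝ) +
      (Nat.card {e : Ordering n // ∀ m : ℕ,
        (∀ j < m, ∃ a : Fin n → Bool, Satisfies a (process e j)) →
        ∀ H ⊆ process e m, H.Nonempty → ¬ UniquelySat H} : ℝ) = (Nat.card (Ordering n) : ℝ) := by
    exact_mod_cast hsum
  linarith

end Pool.Agent.Results.MP_284d10_pr.TwoSat
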